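import Mathlib
import Pool.Agent.Results.MP_6d7a61_nt.Adm

set_option autoImplicit false

namespace Pool.Agent.Results.MP_14d1e0_nt.Empty

open Matrix Pool.Agent.Results.MP_6d7a61_nt.Adm

theorem result : ∃ A : Matrix (Fin 2) (Fin 2) ℝ, ∀ l : ℝ,
    ¬∀ N : ℕ, ∃ x y : Fin 2 → ℤ, 2 ≤ ‖fun i => (y i : ℝ)‖ ∧
      ‖(A - l • 1) *ᵥ (fun i => (y i : ℝ)) - fun i => (x i : ℝ)‖ < (‖fun i => (y i : ℝ)‖ ^ N)⁻¹ := by
  obtain ⟨θ, -, -, E, hE⟩ := alg 4
  refine ⟨!![θ ^ 2, θ; θ ^ 3, 0], fun l h => ?_⟩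
  let L := LinearMap.toContinuousLinearMap
    (!![θ ^ 2, θ; θ ^ 3, 0] - l • (1 : Matrix (Fin 2) (Fin 2) ℝ)).mulVecLin
  obtain ⟨k, hk⟩ := pow_unbounded_of_one_lt
    (2 * ((4 : ℕ) * 2 ^ 4 * (2 * (‖L‖ + 1))) ^ E) (one_lt_two (α := ℝ))
  obtain ⟨p, q, h2, h3⟩ := h (2 * E + 1 + k)
  change 2 ≤ ‖re q‖ at h2
  change ‖L (re q) - re p‖ < (‖re q‖ ^ _)⁻¹ at h3
  have hp : ‖re p‖ ≤ (‖L‖ + 1) * ‖re q‖ := by
    have a := L.le_opNorm (re q)
    have b := norm_sub_norm_le (re p) (L (re q))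
    rw [norm_sub_rev] at b
    have := inv_le_one_of_one_le₀ (one_le_pow₀ (n := 2 * E + 1 + k) (show 1 ≤ ‖re q‖ by linarith))
    linarith
  have q0 : |(q 0 : ℝ)| ≤ ‖re q‖ := norm_le_pi_norm (re q) 0
  have q1 : |(q 1 : ℝ)| ≤ ‖re q‖ := norm_le_pi_norm (re q) 1
  have p0 : |(p 0 : ℝ)| ≤ _ := (norm_le_pi_norm (re p) 0).trans hp
  have p1 : |(p 1 : ℝ)| ≤ _ := (norm_le_pi_norm (re p) 1).trans hp
  have hL := norm_nonneg L
  have m : ∀ a b : ℝ, |a| ≤ ‖re q‖ → |b| ≤ ‖re q‖ → |a * b| ≤ 2 * (‖L‖ + 1) * ‖re q‖ ^ 2 :=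
    fun a b ha hb => by
      have := mul_le_mul ha hb (abs_nonneg _) (norm_nonneg _)
      rw [abs_mul]
      nlinarith [mul_nonneg hL (sq_nonneg ‖re q‖)]
  have := hE 4 le_rfl ![p 1 * q 0 - p 0 * q 1, q 1 * q 1, q 0 * q 1, -(q 0 * q 0)]
    (2 * (‖L‖ + 1) * ‖re q‖ ^ 2) (fun c => by
      have a : q 1 = 0 := by simpa using congrFun c 1
      have b : q 0 = 0 := by simpa using congrFun c 3
      rw [show re q = 0 by ext i; fin_cases i <;> simp [re, a, b]] at h2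
      norm_num at h2) fun i => by
    fin_cases i
    · have a := mul_le_mul p1 q0 (abs_nonneg _) (by positivity)
      have b := mul_le_mul p0 q1 (abs_nonneg _) (by positivity)
      have := abs_sub ((p 1 : ℝ) * q 0) (p 0 * q 1)
      rw [abs_mul, abs_mul] at this
      simp only [Fin.zero_eta, cons_val_zero, Int.cast_sub, Int.cast_mul]
      linarith
    · simpa using m _ _ q1 q1
    · simpa using m _ _ q0 q1
    · simpa using m _ _ q0 q0
  rw [show ∑ i : Fin 4, ((![p 1 * q 0 - p 0 * q 1, q 1 * q 1, q 0 * q 1, -(q 0 * q 0)] :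
      Fin 4 → ℤ) i : ℝ) * θ ^ i.val = (L (re q) - re p) 0 * q 1 - (L (re q) - re p) 1 * q 0 by
    simp [L, re, Fin.sum_univ_four, vecHead, vecTail]; ring,
    ← mul_assoc, mul_pow] at this
  have a : |(L (re q) - re p) 0| ≤ _ := (norm_le_pi_norm (L (re q) - re p) 0).trans h3.le
  have b : |(L (re q) - re p) 1| ≤ _ := (norm_le_pi_norm (L (re q) - re p) 1).trans h3.le
  generalize L (re q) - re p = v at *
  have c : |v 0 * q 1 - v 1 * q 0| ≤ 2 * ((‖re q‖ ^ (2 * E + 1 + k))⁻¹ * ‖re q‖) := by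
    refine (abs_sub _ _).trans ?_
    rw [abs_mul, abs_mul]
    linarith [mul_le_mul a q1 (abs_nonneg _) (by positivity),
      mul_le_mul b q0 (abs_nonneg _) (by positivity)]
  have d := pow_le_pow_left₀ zero_le_two h2 k
  have e := this.trans (mul_le_mul_of_nonneg_right c (by positivity))
  generalize ((4 : ℕ) * 2 ^ 4 * (2 * (‖L‖ + 1))) ^ E = M at *
  have q0 : 0 < ‖re q‖ := by linarith
  rw [pow_add, pow_add, ← pow_mul] at e
  field_simp at e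
  linarith

end Pool.Agent.Results.MP_14d1e0_nt.Empty
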